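import Pool.Agent.TH943.SF.Sq

/-!
The `L`-functions of `D(t) y ^ 2 = (x - h(t)) f(x)` with squarefree reduction modulo two.
-/

set_option autoImplicit false
set_option maxHeartbeats 1000000

open Polynomial

namespace Pool.Agent.TH943.SF

open Pool.Agent.W313.Hyp Pool.Agent.W343.BSD Pool.Agent.TH943.HJ Pool.Agent.TH943.LP

section

variable {k : Type} [Field k] [Finite k]

theorem coe_A (n : ℕ) : ((A n : (ZMod 2)[X]) : PowerSeries (ZMod 2)) = 1 + PowerSeries.X ^ n :=
  coe_zf' n

theorem coe_A1 : ((A 1 : (ZMod 2)[X]) : PowerSeries (ZMod 2)) = 1 + PowerSeries.X := by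
  rw [coe_A, pow_one]

theorem prod_facs_irr {g : k[X]} (hg : Irreducible g) (F : ℕ → PowerSeries (ZMod 2)) :
    ∏ R ∈ facs g, F R.1.natDegree = F g.natDegree := by
  classical
  have hn : normalize g ∈ {P : k[X] | P.Monic ∧ Irreducible P} :=
    ⟨monic_normalize hg.ne_zero, (normalize_associated g).symm.irreducible hg⟩
  have h1 : facs g = {⟨normalize g, hn⟩} := by
    ext R
    rw [mem_facs hg.ne_zero, Finset.mem_singleton]
    constructor
    · intro h
      apply Subtype.ext
      have h2 := R.2.2.associated_of_dvd hg h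
      exact eq_of_monic_of_associated R.2.1 hn.1 (h2.trans (normalize_associated g).symm)
    · rintro rfl
      exact (normalize_associated g).dvd
  rw [h1, Finset.prod_singleton]
  congr 1
  exact natDegree_eq_of_degree_eq (degree_eq_degree_of_associated (normalize_associated _))

theorem facs_const {c : k} (hc : c ≠ 0) : facs (C c : k[X]) = ∅ := by
  rw [Finset.eq_empty_iff_forall_notMem]
  intro P hP
  rw [mem_facs (C_ne_zero.2 hc)] at hP
  exact P.2.2.not_isUnit (isUnit_of_dvd_unit hP (isUnit_C.2 (isUnit_iff_ne_zero.2 hc)))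

theorem Psi_irr {f : k[X]} (hf : Irreducible f) (d : ℕ) (hd : Nat.Coprime d f.natDegree) :
    Psi f d = 1 + PowerSeries.X ^ (f.natDegree * d) := by
  unfold Psi
  rw [prod_facs_irr hf (fun n => (1 + PowerSeries.X ^ Nat.lcm d n) ^ Nat.gcd d n),
    hd.gcd_eq_one, hd.lcm_eq_mul, pow_one, mul_comm]

/-- the result for constant `D` -/
theorem mod_const (h2 : (2 : k) ≠ 0) {f h : k[X]} (hf : Irreducible f) (hn : Odd f.natDegree)
    (hm : Odd h.natDegree) (hfh : Irreducible (f.comp h)) {c : k} (hc : c ≠ 0) {P : ℤ[X]}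
    (hP : (P : PowerSeries ℤ) = LL f h (C c)) :
    Squarefree (P.map (Int.castRingHom (ZMod 2))) ∧
      (P.map (Int.castRingHom (ZMod 2))).natDegree + f.natDegree =
        f.natDegree * h.natDegree + 1 := by
  classical
  apply squarefree_const hn hm
  have hh0 : h ≠ 0 := by
    rintro rfl
    rw [natDegree_zero] at hm
    exact absurd hm (by decide)
  have h1 := identity_LL (card_odd h2) hf.ne_zero hfh.ne_zero hh0 (C_ne_zero.2 hc : C c ≠ 0)
  have hev : ¬ Even (h.natDegree + (C c : k[X]).natDegree) := by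
    rw [natDegree_C, add_zero, Nat.not_even_iff_odd]
    exact hm
  rw [← hP, red2_poly, facs_const hc, if_pos hn, if_neg hev, if_pos hn, if_neg hev,
    Finset.sdiff_empty, Finset.prod_empty, Finset.prod_empty,
    prod_facs_irr hf (fun n => 1 + PowerSeries.X ^ n),
    prod_facs_irr hfh (fun n => 1 + PowerSeries.X ^ n), natDegree_comp] at h1
  simp only [mul_one] at h1
  apply coe_inj2
  rw [Polynomial.coe_mul, Polynomial.coe_mul, coe_A, coe_A, coe_A1]
  exact h1

/-- the result for `D = c P` -/
theorem mod_prime (h2 : (2 : k) ≠ 0) {f h Q : k[X]} (hf : Irreducible f) (hn : Odd f.natDegree)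
    (hn3 : 3 ≤ f.natDegree)
    (hm : Odd h.natDegree) (hfh : Irreducible (f.comp h)) (hQ : Irreducible Q)
    (hd : Odd Q.natDegree) (hcop : Nat.Coprime Q.natDegree (f.natDegree * h.natDegree)) {c : k}
    (hc : c ≠ 0) {P : ℤ[X]} (hP : (P : PowerSeries ℤ) = LL f h (C c * Q)) :
    Squarefree (P.map (Int.castRingHom (ZMod 2))) ∧
      (P.map (Int.castRingHom (ZMod 2))).natDegree + 2 * f.natDegree + Q.natDegree =
        f.natDegree * h.natDegree + f.natDegree * Q.natDegree + 2 := by
  classical
  have hc1 : Nat.Coprime Q.natDegree f.natDegree := Nat.Coprime.coprime_mul_right_right hcop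
  have hc2 : Nat.Coprime Q.natDegree h.natDegree := Nat.Coprime.coprime_mul_left_right hcop
  apply squarefree_prime hn hm hd hc1.symm hc2.symm
  have hh0 : h ≠ 0 := by
    rintro rfl
    rw [natDegree_zero] at hm
    exact absurd hm (by decide)
  have hD0 : C c * Q ≠ 0 := mul_ne_zero (C_ne_zero.2 hc) hQ.ne_zero
  have h1 := identity_LL (card_odd h2) hf.ne_zero hfh.ne_zero hh0 hD0
  have hdeg : (C c * Q).natDegree = Q.natDegree := natDegree_C_mul hc
  have hev : Even (h.natDegree + (C c * Q).natDegree) := by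
    rw [hdeg]
    exact hm.add_odd hd
  have hfacs : facs (C c * Q) = facs Q := facs_unit hQ.ne_zero hc
  have hdisj : facs (f.comp h) \ facs Q = facs (f.comp h) := by
    rw [Finset.sdiff_eq_self_iff_disjoint, Finset.disjoint_left]
    intro R hR hR'
    rw [mem_facs hfh.ne_zero] at hR
    rw [mem_facs hQ.ne_zero] at hR'
    have e1 := R.2.2.associated_of_dvd hfh hR
    have e2 := R.2.2.associated_of_dvd hQ hR'
    have e3 : (f.comp h).natDegree = Q.natDegree :=
      natDegree_eq_of_degree_eq (degree_eq_degree_of_associated (e1.symm.trans e2))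
    rw [natDegree_comp] at e3
    have e4 : Nat.gcd f.natDegree Q.natDegree = f.natDegree := by
      rw [← e3]
      exact Nat.gcd_mul_right_right _ _ |>.trans rfl
    rw [Nat.gcd_comm, hc1.gcd_eq_one] at e4
    omega
  rw [← hP, red2_poly, hfacs, if_pos hn, if_pos hev, if_pos hn, if_pos hev, hdisj,
    prod_facs_irr hf (fun n => 1 + PowerSeries.X ^ n),
    prod_facs_irr hfh (fun n => 1 + PowerSeries.X ^ n),
    prod_facs_irr hQ (fun n => 1 + PowerSeries.X ^ n),
    prod_facs_irr hQ (fun n => Psi f n), Psi_irr hf _ hc1, natDegree_comp] at h1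
  apply coe_inj2
  simp only [Polynomial.coe_mul]
  rw [coe_A, coe_A, coe_A, coe_A, coe_A1]
  calc _ = ((P.map (Int.castRingHom (ZMod 2)) : (ZMod 2)[X]) : PowerSeries (ZMod 2)) *
      ((1 + PowerSeries.X ^ f.natDegree) *
        ((1 + PowerSeries.X ^ Q.natDegree) * (1 + PowerSeries.X ^ f.natDegree))) := by ring
    _ = _ := h1

end

/-- from the reduction modulo two to the endomorphism -/
theorem charpoly_squarefree {P : ℤ[X]} {E : Type} [Field E] [CharZero E] {V : Type}
    [AddCommGroup V] [Module E V] [FiniteDimensional E V] (Ψ : Module.End E V)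
    (hinj : Function.Injective Ψ) (hP : P.map (Int.castRingHom E) = Ψ.charpoly.reverse)
    (hs : Squarefree (P.map (Int.castRingHom (ZMod 2))))
    (hd : (P.map (Int.castRingHom (ZMod 2))).natDegree = Module.finrank E V) :
    Squarefree Ψ.charpoly := by
  have hmon : Ψ.charpoly.Monic := LinearMap.charpoly_monic Ψ
  have h0 : P.coeff 0 = 1 := by
    have h1 := congrArg (fun p => p.coeff 0) hP
    simp only [coeff_map, coeff_zero_reverse] at h1
    rw [hmon.leadingCoeff, eq_intCast] at h1
    exact_mod_cast h1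
  have hc0 : Ψ.charpoly.coeff 0 ≠ 0 := by
    intro h
    have h1 := LinearMap.det_eq_sign_charpoly_coeff Ψ
    rw [h, mul_zero] at h1
    have h2 : LinearMap.ker Ψ = ⊥ := LinearMap.ker_eq_bot.2 hinj
    have h3 : IsUnit (LinearMap.det Ψ) := by
      rw [← LinearMap.isUnit_iff_isUnit_det]
      exact (LinearMap.isUnit_iff_ker_eq_bot Ψ).2 h2
    rw [h1] at h3
    exact not_isUnit_zero h3
  have hdeg : P.natDegree = Module.finrank E V := by
    have h1 : (P.map (Int.castRingHom E)).natDegree = P.natDegree :=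
      natDegree_map_eq_of_injective (RingHom.injective_int _) P
    rw [← h1, hP, reverse_natDegree, LinearMap.charpoly_natDegree]
    have h2 : Ψ.charpoly.natTrailingDegree = 0 := by
      rw [natTrailingDegree_eq_zero]
      exact Or.inr hc0
    rw [h2, Nat.sub_zero]
  have h3 := squarefree_field h0 hs (hd.trans hdeg.symm) E
  rw [hP] at h3
  exact squarefree_of_reverse hc0 h3

end Pool.Agent.TH943.SF
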