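import Pool.Agent.TH943.LP.Ord

/-!
Squarefree `L`-polynomials modulo two.
-/

set_option autoImplicit false
set_option maxHeartbeats 1000000

open Polynomial

namespace Pool.Agent.TH943.SF

/-- The polynomial `1 + X ^ n` over the field with two elements. -/
noncomputable def A (n : ℕ) : (ZMod 2)[X] := 1 + X ^ n

theorem A_eq (n : ℕ) : A n = X ^ n - 1 := by
  unfold A
  rw [CharTwo.sub_eq_add, add_comm]

theorem A_ne {n : ℕ} (hn : 0 < n) : A n ≠ 0 := by
  rw [A_eq]
  exact X_pow_sub_C_ne_zero hn 1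

theorem A_natDegree (n : ℕ) : (A n).natDegree = n := by
  rw [A_eq, ← C_1]
  rcases Nat.eq_zero_or_pos n with rfl | hn
  · simp
  · exact natDegree_X_pow_sub_C

theorem A_dvd {m n : ℕ} (h : m ∣ n) : A m ∣ A n := by
  obtain ⟨c, rfl⟩ := h
  rw [A_eq, A_eq, pow_mul]
  exact sub_one_dvd_pow_sub_one_aux _ _
where
  sub_one_dvd_pow_sub_one_aux (x : (ZMod 2)[X]) (c : ℕ) : x - 1 ∣ x ^ c - 1 := by
    simpa using sub_dvd_pow_sub_pow x 1 c

theorem A_squarefree {n : ℕ} (hn : Odd n) : Squarefree (A n) := by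
  rw [A_eq]
  apply Separable.squarefree
  rw [X_pow_sub_one_separable_iff]
  obtain ⟨j, rfl⟩ := hn
  push_cast
  have h2 : (2 : ZMod 2) = 0 := rfl
  rw [h2, zero_mul, zero_add]
  exact one_ne_zero

theorem A_gcd {a b : ℕ} {g : (ZMod 2)[X]} (ha : g ∣ A a) (hb : g ∣ A b) :
    g ∣ A (Nat.gcd a b) := by
  rw [A_eq, ← Ideal.mem_span_singleton, ← Ideal.Quotient.eq_zero_iff_mem, map_sub, map_pow,
    map_one, sub_eq_zero] at ha hb ⊢
  exact pow_gcd_eq_one.2 ⟨ha, hb⟩

theorem squarefree_const {n m : ℕ} (hn : Odd n) (hm : Odd m) {L : (ZMod 2)[X]}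
    (h : L * A n = A (n * m) * A 1) : Squarefree L ∧ L.natDegree + n = n * m + 1 := by
  have hA : A n ≠ 0 := A_ne hn.pos
  obtain ⟨S, hS⟩ := A_dvd (Dvd.intro m rfl : n ∣ n * m)
  have hL : L = S * A 1 := by
    apply mul_right_cancel₀ hA
    rw [h, hS]
    ring
  have h1 : Squarefree (A n * S) := by
    rw [← hS]
    exact A_squarefree (hn.mul hm)
  obtain ⟨h2, -, h3⟩ := squarefree_mul_iff.1 h1
  refine ⟨?_, ?_⟩
  · rw [hL]
    refine squarefree_mul_iff.2 ⟨?_, h3, A_squarefree odd_one⟩
    intro g hg1 hg2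
    exact h2 (hg2.trans (A_dvd (one_dvd n))) hg1
  · have hL0 : L ≠ 0 := by
      rintro rfl
      rw [zero_mul] at h
      exact mul_ne_zero (A_ne (Nat.mul_pos hn.pos hm.pos)) (A_ne one_pos) h.symm
    have h4 := congrArg natDegree h
    rw [natDegree_mul hL0 hA, natDegree_mul (A_ne (Nat.mul_pos hn.pos hm.pos)) (A_ne one_pos),
      A_natDegree, A_natDegree, A_natDegree] at h4
    exact h4

theorem squarefree_prime {n m d : ℕ} (hn : Odd n) (hm : Odd m) (hd : Odd d)
    (hnd : Nat.Coprime n d) (hmd : Nat.Coprime m d) {L : (ZMod 2)[X]}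
    (h : L * (A n * A n * A d) = A (n * m) * A (n * d) * (A 1 * A 1)) :
    Squarefree L ∧ L.natDegree + 2 * n + d = n * m + n * d + 2 := by
  have hAn : A n ≠ 0 := A_ne hn.pos
  have hAd : A d ≠ 0 := A_ne hd.pos
  have hA1 : A 1 ≠ 0 := A_ne one_pos
  obtain ⟨S, hS⟩ := A_dvd (Dvd.intro m rfl : n ∣ n * m)
  obtain ⟨R, hR⟩ := A_dvd (one_dvd d)
  have hR0 : R ≠ 0 := by
    rintro rfl
    rw [mul_zero] at hR
    exact hAd hR
  have hRsq := squarefree_mul_iff.1 (by rw [← hR]; exact A_squarefree hd : Squarefree (A 1 * R))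
  have hcop : IsRelPrime (A n) R := by
    intro g hg1 hg2
    have h3 : g ∣ A (Nat.gcd n d) := A_gcd hg1 (hg2.trans (by rw [hR]; exact dvd_mul_left _ _))
    rw [hnd.gcd_eq_one] at h3
    exact hRsq.1 h3 hg2
  have hdvd : A n * R ∣ A (n * d) := by
    apply hcop.isCoprime.mul_dvd (A_dvd (Dvd.intro d rfl))
    exact (by rw [hR]; exact dvd_mul_left _ _ : R ∣ A d).trans (A_dvd (Dvd.intro_left n rfl))
  obtain ⟨M, hM⟩ := hdvd
  have hL : L = S * M * A 1 := by
    apply mul_right_cancel₀ (mul_ne_zero (mul_ne_zero hAn hAn) (mul_ne_zero hA1 hR0))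
    calc L * (A n * A n * (A 1 * R)) = L * (A n * A n * A d) := by rw [← hR]
      _ = A (n * m) * A (n * d) * (A 1 * A 1) := h
      _ = S * M * A 1 * (A n * A n * (A 1 * R)) := by rw [hS, hM]; ring
  have h1 : Squarefree (A n * S) := by
    rw [← hS]
    exact A_squarefree (hn.mul hm)
  obtain ⟨h2, -, h3⟩ := squarefree_mul_iff.1 h1
  have h4 : Squarefree (A n * R * M) := by
    rw [← hM]
    exact A_squarefree (hn.mul hd)
  obtain ⟨h5, -, h6⟩ := squarefree_mul_iff.1 h4
  refine ⟨?_, ?_⟩
  · rw [hL]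
    refine squarefree_mul_iff.2 ⟨?_, squarefree_mul_iff.2 ⟨?_, h3, h6⟩, A_squarefree odd_one⟩
    · rw [IsRelPrime.mul_left_iff]
      refine ⟨?_, ?_⟩
      · intro g hg1 hg2
        exact h2 (hg2.trans (A_dvd (one_dvd n))) hg1
      · intro g hg1 hg2
        exact h5 ((hg2.trans (A_dvd (one_dvd n))).trans (dvd_mul_right _ _)) hg1
    · intro g hg1 hg2
      have h7 : g ∣ A (Nat.gcd (n * m) (n * d)) := by
        apply A_gcd
        · rw [hS]; exact hg1.trans (dvd_mul_left _ _)
        · rw [hM]; exact hg2.trans (dvd_mul_left _ _)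
      rw [Nat.gcd_mul_left, hmd.gcd_eq_one, mul_one] at h7
      exact h2 h7 hg1
  · have hnm : A (n * m) ≠ 0 := A_ne (Nat.mul_pos hn.pos hm.pos)
    have hnd' : A (n * d) ≠ 0 := A_ne (Nat.mul_pos hn.pos hd.pos)
    have hL0 : L ≠ 0 := by
      rintro rfl
      rw [zero_mul] at h
      exact mul_ne_zero (mul_ne_zero hnm hnd') (mul_ne_zero hA1 hA1) h.symm
    have h8 := congrArg natDegree h
    rw [natDegree_mul hL0 (mul_ne_zero (mul_ne_zero hAn hAn) hAd),
      natDegree_mul (mul_ne_zero hAn hAn) hAd, natDegree_mul hAn hAn,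
      natDegree_mul (mul_ne_zero hnm hnd') (mul_ne_zero hA1 hA1),
      natDegree_mul hnm hnd', natDegree_mul hA1 hA1, A_natDegree, A_natDegree, A_natDegree,
      A_natDegree, A_natDegree] at h8
    omega

/-- A polynomial over the integers with constant coefficient one which is squarefree modulo two, of
the same degree, is squarefree over the rational numbers. -/
theorem squarefree_rat {P : ℤ[X]} (h0 : P.coeff 0 = 1)
    (hs : Squarefree (P.map (Int.castRingHom (ZMod 2))))
    (hd : (P.map (Int.castRingHom (ZMod 2))).natDegree = P.natDegree) :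
    Squarefree (P.map (Int.castRingHom ℚ)) := by
  have hP0 : P ≠ 0 := by
    rintro rfl
    rw [coeff_zero] at h0
    exact zero_ne_one h0
  have hprim : P.IsPrimitive := by
    intro r hr
    rw [C_dvd_iff_dvd_coeff] at hr
    have := hr 0
    rw [h0] at this
    exact isUnit_of_dvd_one this
  intro g hg
  have hPQ : P.map (Int.castRingHom ℚ) ≠ 0 :=
    (Polynomial.map_ne_zero_iff (RingHom.injective_int _)).2 hP0
  have hg0 : g ≠ 0 := by
    rintro rfl
    rw [zero_mul, zero_dvd_iff] at hg
    exact hPQ hg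
  -- the primitive integral multiple of `g`
  obtain ⟨b, hb0, hb⟩ : ∃ b : ℤ, b ≠ 0 ∧
      (IsLocalization.integerNormalization (nonZeroDivisors ℤ) g).map (algebraMap ℤ ℚ) =
        b • g := by
    obtain ⟨b, hb, hb'⟩ := IsLocalization.integerNormalization_spec (nonZeroDivisors ℤ) g
    exact ⟨b, nonZeroDivisors.ne_zero hb, hb'⟩
  set G := (IsLocalization.integerNormalization (nonZeroDivisors ℤ) g) with hG
  set p0 := G.primPart with hp0
  have hpp : p0.IsPrimitive := isPrimitive_primPart G
  have hG0 : G ≠ 0 := by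
    intro h
    rw [h, Polynomial.map_zero] at hb
    have : (b : ℚ) • g = 0 := by rw [Int.cast_smul_eq_zsmul]; exact hb.symm
    rcases smul_eq_zero.1 this with h' | h'
    · exact hb0 (by exact_mod_cast h')
    · exact hg0 h'
  have hassoc : Associated (p0.map (Int.castRingHom ℚ)) g := by
    have h1 : G = C G.content * p0 := eq_C_content_mul_primPart G
    have h2 : C (b : ℚ) * g = C (G.content : ℚ) * p0.map (Int.castRingHom ℚ) := by
      have h3 : G.map (Int.castRingHom ℚ) = C (b : ℚ) * g := by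
        rw [← smul_eq_C_mul, Int.cast_smul_eq_zsmul, ← hb]
        rfl
      rw [← h3]
      conv_lhs => rw [h1]
      rw [Polynomial.map_mul, map_C]
      rfl
    have hc : (G.content : ℚ) ≠ 0 := by
      rw [Int.cast_ne_zero, Ne, content_eq_zero_iff]
      exact hG0
    have hu1 : IsUnit (C (b : ℚ)) := isUnit_C.2 (isUnit_iff_ne_zero.2 (by exact_mod_cast hb0))
    have hu2 : IsUnit (C (G.content : ℚ)) := isUnit_C.2 (isUnit_iff_ne_zero.2 hc)
    have h5 : Associated (C (b : ℚ) * g) g := associated_unit_mul_left g _ hu1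
    have h6 : Associated (C (G.content : ℚ) * p0.map (Int.castRingHom ℚ))
        (p0.map (Int.castRingHom ℚ)) := associated_unit_mul_left _ _ hu2
    rw [← h2] at h6
    exact h6.symm.trans h5
  have hdvd : (p0 * p0).map (Int.castRingHom ℚ) ∣ P.map (Int.castRingHom ℚ) := by
    rw [Polynomial.map_mul]
    exact ((hassoc.mul_mul hassoc).dvd).trans hg
  have hdvd' : p0 * p0 ∣ P :=
    (IsPrimitive.Int.dvd_iff_map_cast_dvd_map_cast _ _ (hpp.mul hpp)).2 hdvd
  obtain ⟨r, hr⟩ := hdvd'
  have hr2 : P.map (Int.castRingHom (ZMod 2)) = p0.map (Int.castRingHom (ZMod 2)) *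
      p0.map (Int.castRingHom (ZMod 2)) * r.map (Int.castRingHom (ZMod 2)) := by
    conv_lhs => rw [hr]
    rw [Polynomial.map_mul, Polynomial.map_mul]
  have hu : IsUnit (p0.map (Int.castRingHom (ZMod 2))) := by
    apply hs
    rw [hr2]
    exact dvd_mul_right _ _
  have hp00 : p0 ≠ 0 := by
    intro h
    rw [h, zero_mul, zero_mul] at hr
    exact hP0 hr
  have hr0 : r ≠ 0 := by
    intro h
    rw [h, mul_zero] at hr
    exact hP0 hr
  have hd2 : P.natDegree = p0.natDegree + p0.natDegree + r.natDegree := by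
    conv_lhs => rw [hr]
    rw [natDegree_mul (mul_ne_zero hp00 hp00) hr0, natDegree_mul hp00 hp00]
  have hd3 : (P.map (Int.castRingHom (ZMod 2))).natDegree ≤ r.natDegree := by
    rw [hr2]
    refine natDegree_mul_le.trans ?_
    have h7 : (p0.map (Int.castRingHom (ZMod 2)) *
        p0.map (Int.castRingHom (ZMod 2))).natDegree = 0 :=
      natDegree_eq_zero_of_isUnit (hu.mul hu)
    rw [h7, zero_add]
    exact natDegree_map_le
  have hp0d : p0.natDegree = 0 := by omega
  have h8 : (p0.map (Int.castRingHom ℚ)).natDegree = 0 :=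
    Nat.eq_zero_of_le_zero (natDegree_map_le.trans hp0d.le)
  have h9 : IsUnit (p0.map (Int.castRingHom ℚ)) := by
    rw [eq_C_of_natDegree_eq_zero h8, isUnit_C, isUnit_iff_ne_zero]
    intro h
    have : p0.map (Int.castRingHom ℚ) = 0 := by
      rw [eq_C_of_natDegree_eq_zero h8, h, C_0]
    exact hp00 ((Polynomial.map_eq_zero_iff (RingHom.injective_int _)).1 this)
  exact hassoc.isUnit h9

/-- the same over every field of characteristic zero -/
theorem squarefree_field {P : ℤ[X]} (h0 : P.coeff 0 = 1)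
    (hs : Squarefree (P.map (Int.castRingHom (ZMod 2))))
    (hd : (P.map (Int.castRingHom (ZMod 2))).natDegree = P.natDegree)
    (E : Type) [Field E] [CharZero E] : Squarefree (P.map (Int.castRingHom E)) := by
  have h1 := squarefree_rat h0 hs hd
  have h2 : (P.map (Int.castRingHom ℚ)).Separable := PerfectField.separable_iff_squarefree.2 h1
  have h3 : ((P.map (Int.castRingHom ℚ)).map (algebraMap ℚ E)).Separable := h2.map
  rw [Polynomial.map_map] at h3
  have h4 : (algebraMap ℚ E).comp (Int.castRingHom ℚ) = Int.castRingHom E := RingHom.ext_int _ _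
  rw [h4] at h3
  exact h3.squarefree

/-- a polynomial with squarefree reverse and nonzero constant coefficient is squarefree -/
theorem squarefree_of_reverse {E : Type} [Field E] {p : E[X]} (h0 : p.coeff 0 ≠ 0)
    (h : Squarefree p.reverse) : Squarefree p := by
  intro a ⟨b, hb⟩
  have h1 : p.reverse = a.reverse * a.reverse * b.reverse := by
    rw [hb, reverse_mul_of_domain, reverse_mul_of_domain]
  have h2 : IsUnit a.reverse := h a.reverse (by rw [h1]; exact dvd_mul_right _ _)
  have h3 : a.coeff 0 ≠ 0 := by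
    intro h4
    apply h0
    rw [hb, mul_coeff_zero, mul_coeff_zero, h4, zero_mul, zero_mul]
  have h5 : a.natDegree = 0 := by
    have h6 := natDegree_eq_zero_of_isUnit h2
    rw [reverse_natDegree] at h6
    have h7 : a.natTrailingDegree = 0 := by
      rw [natTrailingDegree_eq_zero]
      exact Or.inr h3
    omega
  rw [eq_C_of_natDegree_eq_zero h5]
  exact isUnit_C.2 (isUnit_iff_ne_zero.2 h3)

/-- **semisimplicity** on a direct sum of a part with squarefree characteristic polynomial and a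
part on which a power of the endomorphism is a nonzero scalar -/
theorem semisimple_sum {E : Type} [Field E] [CharZero E] {V : Type} [AddCommGroup V] [Module E V]
    (Φ : Module.End E V) {p : E[X]} (hp : Squarefree p)
    (W N : Submodule E V) (hWN : W ⊔ N = ⊤)
    (hW : ∀ v ∈ W, aeval Φ p v = 0) {r : ℕ} (hr : 0 < r) {c : E} (hc : c ≠ 0)
    (hN : ∀ v ∈ N, (Φ ^ r) v = c • v) : Φ.IsSemisimple := by
  have hq : Squarefree (X ^ r - C c : E[X]) := by
    apply Separable.squarefree
    exact separable_X_pow_sub_C c (by exact_mod_cast hr.ne') hc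
  classical
  set q : E[X] := X ^ r - C c with hqdef
  obtain ⟨p', hp'⟩ : EuclideanDomain.gcd p q ∣ p := EuclideanDomain.gcd_dvd_left p q
  set g := EuclideanDomain.gcd p q with hg
  have hsp := squarefree_mul_iff.1 (by rw [← hp']; exact hp : Squarefree (g * p'))
  have hrel : IsRelPrime q p' := by
    intro a ha1 ha2
    have h1 : a ∣ p := by
      rw [hp']
      exact ha2.trans (dvd_mul_left _ _)
    exact hsp.1 (EuclideanDomain.dvd_gcd h1 ha1) ha2
  have hF : Squarefree (q * p') := squarefree_mul_iff.2 ⟨hrel, hq, hsp.2.2⟩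
  have hpF : p ∣ q * p' := by
    conv_lhs => rw [hp']
    exact mul_dvd_mul_right (EuclideanDomain.gcd_dvd_right p q) p'
  refine Module.End.isSemisimple_of_squarefree_aeval_eq_zero hF ?_
  ext v
  have hv : v ∈ W ⊔ N := by rw [hWN]; trivial
  obtain ⟨w, hw, u, hu, rfl⟩ := Submodule.mem_sup.1 hv
  have h1 : aeval Φ (q * p') w = 0 := by
    obtain ⟨a, ha⟩ := hpF
    rw [ha, mul_comm, map_mul, Module.End.mul_apply, hW w hw, map_zero]
  have h2 : aeval Φ (q * p') u = 0 := by
    rw [mul_comm, map_mul, Module.End.mul_apply]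
    have h3 : aeval Φ q u = 0 := by
      rw [hqdef, map_sub, map_pow, aeval_X, aeval_C, LinearMap.sub_apply, hN u hu,
        Module.algebraMap_end_apply, sub_self]
    rw [h3, map_zero]
  rw [map_add, h1, h2, add_zero]
  rfl

end Pool.Agent.TH943.SF
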